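import Pool.Agent.TH600.LK.Tow
import Pool.Agent.TH600.LE.Gap

/-!
# Towers over the algebraic closure of a ring of transcendence degree one
-/

set_option autoImplicit false

namespace Pool.Agent.TH600.LK

open Filter Topology MvPolynomial
open Pool.Agent.TH600.LC hiding evS
open Pool.Agent.TH600.LM
open Pool.Agent.TH600.LE
open Pool.Agent.TH143.EL hiding evS

variable {B : Subalgebra ℂ (ℂ → ℂ)}

/-- the field of meromorphic functions which are algebraic over `B` -/
noncomputable def KB (hB : TrOne B) : IntermediateField ℂ MK :=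
  (clo ℂ ((BCl hB : Subalgebra ℂ MK) : Set MK)).toIntermediateField fun _ hx => inv_mem_clo hx

theorem mem_KB {hB : TrOne B} {x : MK} :
    x ∈ KB hB ↔ x ∈ clo ℂ ((BCl hB : Subalgebra ℂ MK) : Set MK) := Iff.rfl

theorem base_KB (hB : TrOne B) : Base MDer (KB hB) where
  stable := fun x hx => by
    have h1 := der_mem_clo MDer (fun c => ⟨0, by rw [MDer.map_algebraMap, map_zero]⟩)
      (mem_KB.1 hx)
    rw [mem_KB]
    refine clo_le ?_ h1
    rintro y (hy | ⟨y, hy, rfl⟩)
    · exact subset_clo _ hy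
    · exact subset_clo _ (mder_stable hB y hy)
  closed := fun x hx => by
    have h1 : x ∈ clo ℂ ((KB hB).toSubalgebra : Set MK) := mem_cloA.2 hx
    rw [mem_KB]
    exact clo_le (fun y hy => mem_KB.1 hy) h1

theorem exists_T_KB (hB : TrOne B) : ∃ T : Set MK, T.Finite ∧ (∀ s ∈ T, MDer s ∈ clo ℂ T) ∧
    ∀ x ∈ KB hB, x ∈ clo ℂ T := by
  obtain ⟨T, hT, hTB, hBT⟩ := exists_T_BCl' hB
  refine ⟨T, hT, fun s hs => hBT (mder_stable hB s (hTB hs)), fun x hx => ?_⟩
  exact clo_le hBT (mem_KB.1 hx)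

/-- The meromorphic functions which are obtained from the functions in `B` by additions,
multiplications, exponentials of entire functions and integrations. -/
inductive TowFun (B : Subalgebra ℂ (ℂ → ℂ)) : (ℂ → ℂ) → Prop
  | base {b : ℂ → ℂ} : b ∈ B → TowFun B b
  | add {f g : ℂ → ℂ} : TowFun B f → TowFun B g → TowFun B (fun z => f z + g z)
  | mul {f g : ℂ → ℂ} : TowFun B f → TowFun B g → TowFun B (fun z => f z * g z)
  | exp {f : ℂ → ℂ} : TowFun B f → Differentiable ℂ f → TowFun B (fun z => Complex.exp (f z))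
  | prim {F : ℂ → ℂ} : Meromorphic F → TowFun B (deriv F) → TowFun B F

theorem TowFun.mero (hB : TrOne B) {f : ℂ → ℂ} (hf : TowFun B f) : Meromorphic f := by
  induction hf with
  | base hb => exact hB.mero _ hb
  | add _ _ h1 h2 => exact h1.add h2
  | mul _ _ h1 h2 => exact h1.mul h2
  | exp _ h1 _ => exact mero_of_diff h1.cexp
  | prim h _ _ => exact h

/-- towers over the field of meromorphic functions algebraic over `B` -/
abbrev TowM (hB : TrOne B) (A : Subalgebra ℂ MK) (L : AddSubgroup EntS) : Prop :=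
  Tow MDer eι eex (KB hB) A L

theorem TowFun.exists_tow (hB : TrOne B) {f : ℂ → ℂ} (hf : TowFun B f) :
    ∀ (A : Subalgebra ℂ MK) (L : AddSubgroup EntS), TowM hB A L →
      ∃ (A' : Subalgebra ℂ MK) (L' : AddSubgroup EntS), TowM hB A' L' ∧ A ≤ A' ∧
        cl f (hf.mero hB) ∈ A' := by
  induction hf with
  | @base b hb =>
    intro A L hA
    refine ⟨A, L, hA, le_rfl, Tow.le hA ?_⟩
    have h1 : cl b (hB.mero _ hb) ∈ BCl hB := ⟨b, hb, rfl⟩
    exact subset_clo _ h1
  | @add f g hf hg h1 h2 =>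
    intro A L hA
    obtain ⟨A₁, L₁, hA₁, hle₁, hf₁⟩ := h1 A L hA
    obtain ⟨A₂, L₂, hA₂, hle₂, hg₂⟩ := h2 A₁ L₁ hA₁
    exact ⟨A₂, L₂, hA₂, hle₁.trans hle₂, A₂.add_mem (hle₂ hf₁) hg₂⟩
  | @mul f g hf hg h1 h2 =>
    intro A L hA
    obtain ⟨A₁, L₁, hA₁, hle₁, hf₁⟩ := h1 A L hA
    obtain ⟨A₂, L₂, hA₂, hle₂, hg₂⟩ := h2 A₁ L₁ hA₁
    exact ⟨A₂, L₂, hA₂, hle₁.trans hle₂, A₂.mul_mem (hle₂ hf₁) hg₂⟩
  | @exp f hf hd h1 =>
    intro A L hA
    obtain ⟨A₁, L₁, hA₁, hle₁, hf₁⟩ := h1 A L hA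
    let u : EntS := ⟨f, hd⟩
    by_cases h2 : IsAlgebraic A₁ (eex u)
    · obtain ⟨A₂, L₂, hA₂, hle₂, hu⟩ := Tow.root expData (base_KB hB) hA₁ (u := u) hf₁ h2
      exact ⟨A₂, L₂, hA₂, hle₁.trans hle₂, hu⟩
    · exact ⟨Lau A₁ (eex u), _, Tow.expo hA₁ (w := u) hf₁ h2, hle₁.trans (le_Lau A₁ _),
        self_Lau A₁ _⟩
  | @prim F hF hF' h1 =>
    intro A L hA
    obtain ⟨A₁, L₁, hA₁, hle₁, hf₁⟩ := h1 A L hA
    have h3 : MDer (cl F hF) ∈ A₁ := by
      rw [MDer_apply, MD_cl]
      exact hf₁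
    by_cases h2 : IsAlgebraic A₁ (cl F hF)
    · exact ⟨A₁, L₁, hA₁, hle₁, Tow.prim_mem expData (base_KB hB) hA₁ h3 h2⟩
    · exact ⟨Pol A₁ (cl F hF), L₁, Tow.prim hA₁ h2 h3, hle₁.trans (le_Pol A₁ _), self_Pol A₁ _⟩

theorem exists_tow_fin (hB : TrOne B) {n : ℕ} {y : ℂ → Fin n → ℂ}
    (hy : ∀ i, TowFun B (fun z => y z i)) :
    ∃ (A : Subalgebra ℂ MK) (L : AddSubgroup EntS), TowM hB A L ∧
      ∀ i, cl (fun z => y z i) ((hy i).mero hB) ∈ A := by
  have h : ∀ S : Finset (Fin n), ∃ (A : Subalgebra ℂ MK) (L : AddSubgroup EntS), TowM hB A L ∧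
      ∀ i ∈ S, cl (fun z => y z i) ((hy i).mero hB) ∈ A := by
    classical
    intro S
    induction S using Finset.induction_on with
    | empty => exact ⟨_, _, Tow.base, fun i hi => absurd hi (Finset.notMem_empty i)⟩
    | insert j S hj ih =>
      obtain ⟨A, L, hA, h1⟩ := ih
      obtain ⟨A', L', hA', hle, h2⟩ := (hy j).exists_tow hB A L hA
      refine ⟨A', L', hA', fun i hi => ?_⟩
      rcases Finset.mem_insert.1 hi with rfl | hi
      · exact h2
      · exact hle (h1 i hi)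
  obtain ⟨A, L, hA, h1⟩ := h Finset.univ
  exact ⟨A, L, hA, fun i => h1 i (Finset.mem_univ i)⟩

variable {ψ : ℂ → ℂ} {m : ℕ}

/-- **Joint independence.** -/
theorem jointK (hB : TrOne B) (hψ : Differentiable ℂ ψ) (hn : NCE ψ) {g : ℂ → Fin m → ℂ}
    (hg : ∀ i, HadamardGaps 0 (fun z => g z i)) {σ : Type} [Finite σ] {s : σ → MK}
    (hs : AlgebraicIndependent (KB hB) s) {A : Subalgebra ℂ MK} (hA : ∀ x ∈ A, MDer x ∈ A)
    (hKA : (KB hB).toSubalgebra ≤ A) (hsA : ∀ i, s i ∈ A)
    (hle : (A : Set MK) ⊆ IntermediateField.adjoin (KB hB) (Set.range s))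
    (hψA : cl ψ (mero_of_diff hψ) ∈ A) :
    ∃ I : Finset (Fin m), AlgebraicIndependent (KB hB) (Sum.elim
      (fun l : I => cl (fun z => g (ψ z) l) (mero_of_diff (((hg l).1).comp hψ))) s) ∧
      ∀ i, cl (fun z => g (ψ z) i) (mero_of_diff (((hg i).1).comp hψ)) ∈
        IntermediateField.adjoin (KB hB) (Set.range (Sum.elim
          (fun l : I => cl (fun z => g (ψ z) l) (mero_of_diff (((hg l).1).comp hψ))) s)) := by
  classical
  let i0 := algPsi hψ hn
  have hE := psEmb hψ hn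
  obtain ⟨I, a, p, b, hI, ha, hrel⟩ := exists_rel (tser g)
  obtain ⟨T₀, hT₀, hT₀D, hKT₀⟩ := exists_T_KB hB
  let T : Set MK := T₀ ∪ Set.range s
  have hT : T.Finite := hT₀.union (Set.finite_range s)
  have hKT : ∀ x ∈ KB hB, x ∈ clo ℂ T := fun x hx =>
    clo_mono Set.subset_union_left (hKT₀ x hx)
  have hadj : ∀ x ∈ Algebra.adjoin (KB hB) (Set.range s), x ∈ clo ℂ T := by
    intro x hx
    induction hx using Algebra.adjoin_induction with
    | mem x hx => exact subset_clo _ (Or.inr hx)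
    | algebraMap c => exact hKT c c.2
    | add x y _ _ h1 h2 => exact (clo ℂ T).add_mem h1 h2
    | mul x y _ _ h1 h2 => exact (clo ℂ T).mul_mem h1 h2
  have hAT : ∀ x ∈ A, x ∈ clo ℂ T := by
    intro x hx
    obtain ⟨r, hr, t, ht, rfl⟩ := IntermediateField.mem_adjoin_iff_div.1 (hle hx)
    rw [div_eq_mul_inv]
    exact (clo ℂ T).mul_mem (hadj r hr) (inv_mem_clo (hadj t ht))
  have hc : ∀ c : ℂ, ∃ c' : KK ℂ, algebraMap (KK ℂ) MK c' = algebraMap ℂ MK c := by
    intro c
    refine ⟨algebraMap (Polynomial ℂ) (KK ℂ) (Polynomial.C c), ?_⟩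
    rw [← hE.Φ_pS]
    change Ph hψ (polE (Polynomial.C c)) = _
    rw [Ph_polE, ← cl_const, cl_eq]
    exact Eventually.of_forall fun z => by rw [Polynomial.eval_C]
  have hψT : cl ψ (mero_of_diff hψ) ∈ clo (KK ℂ) T ∧
      cl (deriv ψ) (mero_of_diff hψ).deriv ∈ clo (KK ℂ) T := by
    refine ⟨clo_base hc (hAT _ hψA), clo_base hc (hAT _ ?_)⟩
    have h1 := hA _ hψA
    rw [MDer_apply, MD_cl] at h1
    exact h1
  have hTD : ∀ t ∈ T, MDer t ∈ clo ℂ T := by
    rintro t (ht | ⟨i, rfl⟩)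
    · exact clo_mono Set.subset_union_left (hT₀D t ht)
    · exact hAT _ (hA _ (hsA i))
  have hTD' : ∀ t ∈ T, DPsi hψ t ∈ clo (KK ℂ) T := by
    intro t ht
    rw [DPsi, mulDer_apply, div_eq_mul_inv]
    exact (clo (KK ℂ) T).mul_mem ((clo (KK ℂ) T).mul_mem hψT.1 (inv_mem_clo hψT.2))
      (clo_base hc (hTD t ht))
  let gE : Fin m → EntSub := fun i => ⟨tser g i, ent_tser (hg i).1⟩
  have hgE : ∀ i, Ph hψ (gE i) = cl (fun z => g (ψ z) i)
      (mero_of_diff (((hg i).1).comp hψ)) := by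
    intro i
    rw [Ph_apply, cl_eq]
    exact Eventually.of_forall fun z => ev_tser (hg i).1 (ψ z)
  have hsp : Sparse {n | ∃ i, PowerSeries.coeff n (gE i : PowerSeries ℂ) ≠ 0} := sparse_tser hg
  have hind : AlgebraicIndependent (Algebra.adjoin (KB hB) (Set.range s))
      (fun l : I => cl (fun z => g (ψ z) l) (mero_of_diff (((hg l).1).comp hψ))) := by
    rw [algebraicIndependent_iff]
    intro P hP
    have h1 : MvPolynomial.eval₂ (algebraMap (Algebra.adjoin (KB hB) (Set.range s)) MK)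
        (fun l : I => Ph hψ (gE l)) P = 0 := by
      rw [← hP, aeval_def]
      congr 1
      funext l
      exact hgE l
    have h2 := hE.family gE hsp hI (D := DPsi hψ) (fun u => DPsi_Ph hψ hn u)
      (DPsi_stable hψ hn) hT hTD' (algebraMap (Algebra.adjoin (KB hB) (Set.range s)) MK)
      (fun r => clo_base hc (hadj r.1 r.2)) P h1
    have h3 : Function.Injective (MvPolynomial.map (σ := I)
        (algebraMap (Algebra.adjoin (KB hB) (Set.range s)) MK)) :=
      MvPolynomial.map_injective _ (FaithfulSMul.algebraMap_injective _ _)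
    exact h3 (by rw [h2, map_zero])
  refine ⟨I, hs.sumElim hind, fun i => ?_⟩
  set F := IntermediateField.adjoin (KB hB) (Set.range (Sum.elim
    (fun l : I => cl (fun z => g (ψ z) l) (mero_of_diff (((hg l).1).comp hψ))) s)) with hF
  have hAF : ∀ x ∈ A, x ∈ F := by
    intro x hx
    have h1 : IntermediateField.adjoin (KB hB) (Set.range s) ≤ F := by
      apply IntermediateField.adjoin.mono
      rintro _ ⟨i, rfl⟩
      exact ⟨Sum.inr i, rfl⟩
    exact h1 (hle hx)
  have hlF : ∀ l : I, cl (fun z => g (ψ z) l) (mero_of_diff (((hg l).1).comp hψ)) ∈ F :=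
    fun l => IntermediateField.subset_adjoin _ _ ⟨Sum.inl l, rfl⟩
  have hpF : ∀ q : Polynomial ℂ, Ph hψ (polE q) ∈ F := by
    intro q
    have h1 : Ph hψ (polE q) = Polynomial.aeval (cl ψ (mero_of_diff hψ)) q := by
      have h2 : (Ph hψ).comp polE =
          ((Polynomial.aeval (cl ψ (mero_of_diff hψ)) : Polynomial ℂ →ₐ[ℂ] MK) :
            Polynomial ℂ →+* MK) := by
        apply Polynomial.ringHom_ext
        · intro c
          have h3 : ((Ph hψ).comp polE) (Polynomial.C c) = Ph hψ (polE (Polynomial.C c)) := rfl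
          have h4 : ((Polynomial.aeval (cl ψ (mero_of_diff hψ)) : Polynomial ℂ →ₐ[ℂ] MK) :
            Polynomial ℂ →+* MK) (Polynomial.C c) = algebraMap ℂ MK c := Polynomial.aeval_C _ _
          rw [h3, h4, Ph_polE, ← cl_const, cl_eq]
          exact Eventually.of_forall fun z => by rw [Polynomial.eval_C]
        · have h3 : ((Ph hψ).comp polE) Polynomial.X = Ph hψ (polE Polynomial.X) := rfl
          have h4 : ((Polynomial.aeval (cl ψ (mero_of_diff hψ)) : Polynomial ℂ →ₐ[ℂ] MK) :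
            Polynomial ℂ →+* MK) Polynomial.X = cl ψ (mero_of_diff hψ) := Polynomial.aeval_X _
          rw [h3, h4, Ph_polE, cl_eq]
          exact Eventually.of_forall fun z => by rw [Polynomial.eval_X]
      exact congrArg (fun f : Polynomial ℂ →+* MK => f q) h2
    have h5 : Algebra.adjoin ℂ {cl ψ (mero_of_diff hψ)} ≤ A :=
      Algebra.adjoin_le (Set.singleton_subset_iff.2 hψA)
    rw [h1]
    exact hAF _ (h5 (Polynomial.aeval_mem_adjoin_singleton ℂ _))
  have hrelE : ∀ i, polE a * gE i = polE (p i) + ∑ l ∈ I, polE (b i l) * gE l := by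
    intro i
    apply Subtype.ext
    have h1 := hrel i
    have h3 := map_sum (EntSub.val : EntSub →+* PowerSeries ℂ) (fun l => polE (b i l) * gE l) I
    have h2 : ((polE (p i) + ∑ l ∈ I, polE (b i l) * gE l : EntSub) : PowerSeries ℂ) =
        (p i : PowerSeries ℂ) + ∑ l ∈ I, (b i l : PowerSeries ℂ) * tser g l :=
      congrArg (fun A => (p i : PowerSeries ℂ) + A) h3
    rw [h2, ← h1]
    rfl
  have ha0 : Ph hψ (polE a) ≠ 0 := by
    intro h0
    apply ha
    have h1 : polE a = 0 := Ph_inj hψ hn (by rw [h0, map_zero])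
    have h2 := congrArg (fun u : EntSub => (u : PowerSeries ℂ)) h1
    exact Polynomial.coe_eq_zero_iff.1 h2
  have h1 := congrArg (Ph hψ) (hrelE i)
  rw [map_mul, map_add, map_sum] at h1
  rw [← hgE i]
  have h2 : Ph hψ (gE i) = (Ph hψ (polE (p i)) + ∑ l ∈ I, Ph hψ (polE (b i l) * gE l)) *
      (Ph hψ (polE a))⁻¹ := by
    rw [← h1]
    field_simp
  rw [h2]
  refine F.mul_mem (F.add_mem (hpF _) (F.sum_mem fun l hl => ?_)) (F.inv_mem (hpF _))
  rw [map_mul, hgE]
  exact F.mul_mem (hpF _) (hlF ⟨l, hl⟩)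

/-- The ring generated by the meromorphic functions built from `B` by additions, multiplications,
exponentials of entire functions and integrations, and by the gap series in `ψ`. -/
noncomputable def TowRing (B : Subalgebra ℂ (ℂ → ℂ)) (ψ : ℂ → ℂ) : Subalgebra ℂ (ℂ → ℂ) :=
  Algebra.adjoin ℂ ({u | TowFun B u} ∪ GapIn ψ)

theorem towRing_mero (hB : TrOne B) {ψ : ℂ → ℂ} (hψ : Differentiable ℂ ψ) {u : ℂ → ℂ}
    (hu : u ∈ TowRing B ψ) : Meromorphic u := by
  induction hu using Algebra.adjoin_induction with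
  | mem u hu =>
    rcases hu with hu | hu
    · exact hu.mero hB
    · exact mero_of_diff (gapIn_diff hψ hu)
  | algebraMap c => exact Meromorphic.const c
  | add u v _ _ h1 h2 => exact h1.add h2
  | mul u v _ _ h1 h2 => exact h1.mul h2

/-- **Finitely many elements of the ring are rational functions of elements which are
algebraically independent over the field of the functions algebraic over `B`.** -/
theorem exists_paramK (hB : TrOne B) {ψ : ℂ → ℂ} (hψ : TowFun B ψ) (hd : Differentiable ℂ ψ)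
    (hn : NCE ψ) {N : ℕ} {h : ℂ → Fin N → ℂ} (hh : ∀ j, (fun z => h z j) ∈ TowRing B ψ) :
    ∃ (M : ℕ) (x : Fin M → MK), AlgebraicIndependent (KB hB) x ∧
      ∀ j, cl (fun z => h z j) (towRing_mero hB hd (hh j)) ∈
        IntermediateField.adjoin (KB hB) (Set.range x) := by
  classical
  obtain ⟨n, m, y, g, Q, hy, hg, hQ⟩ := exists_repr_psi {u | TowFun B u} hh
  obtain ⟨A, L, hA, hAy⟩ := exists_tow_fin hB (y := fun z => Fin.snoc (y z) (ψ z)) (n := n + 1) (by
    intro i
    refine Fin.lastCases ?_ (fun i => ?_) i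
    · simpa only [Fin.snoc_last] using hψ
    · simpa only [Fin.snoc_castSucc, Set.mem_setOf_eq] using hy i)
  have hψA : cl ψ (mero_of_diff hd) ∈ A := by
    have h1 := hAy (Fin.last n)
    simpa only [Fin.snoc_last] using h1
  have hyA : ∀ i, cl (fun z => y z i) (TowFun.mero hB (hy i)) ∈ A := by
    intro i
    have h1 := hAy (Fin.castSucc i)
    simpa only [Fin.snoc_castSucc] using h1
  obtain ⟨σ, hσ, s, hs, hsA, hle⟩ := Tow.basis expData hA
  obtain ⟨I, hI, hgI⟩ := jointK hB hd hn hg hs (Tow.stable expData (base_KB hB) hA) (Tow.le hA)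
    hsA hle hψA
  set X := Sum.elim (fun l : I => cl (fun z => g (ψ z) l)
    (mero_of_diff (((hg l).1).comp hd))) s with hX
  have : Finite (I ⊕ σ) := inferInstance
  obtain ⟨M, ⟨e⟩⟩ := Finite.exists_equiv_fin (I ⊕ σ)
  refine ⟨M, fun i => X (e.symm i), hI.comp _ e.symm.injective, fun j => ?_⟩
  have hr : Set.range (fun i => X (e.symm i)) = Set.range X :=
    (e.symm.surjective.range_comp X)
  rw [hr]
  set F := IntermediateField.adjoin (KB hB) (Set.range X) with hF
  have hAF : ∀ x ∈ A, x ∈ F := by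
    intro x hx
    have h1 : IntermediateField.adjoin (KB hB) (Set.range s) ≤ F := by
      apply IntermediateField.adjoin.mono
      rintro _ ⟨i, rfl⟩
      exact ⟨Sum.inr i, rfl⟩
    exact h1 (hle hx)
  have hw : ∀ i : Fin n ⊕ Fin m, Meromorphic ((Sum.elim (fun i z => y z i)
      (fun i z => g (ψ z) i) : Fin n ⊕ Fin m → ℂ → ℂ) i) := by
    intro i
    rcases i with i | i
    · exact TowFun.mero hB (hy i)
    · exact mero_of_diff (((hg i).1).comp hd)
  have h1 := aeval_cl (σ := Fin n ⊕ Fin m) (Sum.elim (fun i z => y z i) (fun i z => g (ψ z) i))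
    hw (Q j)
  have h2 : cl (fun z => h z j) (towRing_mero hB hd (hh j)) =
      MvPolynomial.aeval (fun i => cl _ (hw i)) (Q j) := by
    rw [h1, cl_eq]
    refine Eventually.of_forall fun z => ?_
    have h3 := hQ z j
    rw [h3]
    congr 2
    funext i
    rcases i with i | i <;> rfl
  rw [h2]
  have h3 : Algebra.adjoin ℂ (Set.range fun i => cl _ (hw i)) ≤
      (F.restrictScalars ℂ).toSubalgebra := by
    apply Algebra.adjoin_le
    rintro _ ⟨i, rfl⟩
    rcases i with i | i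
    · exact hAF _ (hyA i)
    · exact hgI i
  apply h3
  rw [Algebra.adjoin_range_eq_range_aeval]
  exact ⟨Q j, rfl⟩

end Pool.Agent.TH600.LK
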