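import Pool.Agent.TH600.LK.Base
import Pool.Agent.TH600.LE.Fin

/-!
# Dichotomy for curves given by towers
-/

set_option autoImplicit false

namespace Pool.Agent.TH600.LK

open Filter Topology MvPolynomial
open scoped LinearAlgebra.Projectivization
open Pool.Agent.TH600.LC hiding evS
open Pool.Agent.TH600.LM
open Pool.Agent.TH600.LE
open Pool.Agent.TH143.EL hiding evS
open Pool.Agent.TH143.HE (RatCurvesIn IsPtP NonConst)

variable {B : Subalgebra ℂ (ℂ → ℂ)}

/-- the ring of the meromorphic functions which are algebraic over `B` -/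
def BA (hB : TrOne B) : Subalgebra ℂ (ℂ → ℂ) where
  carrier := {u | ∃ hu : Meromorphic u, cl u hu ∈ KB hB}
  mul_mem' := by
    rintro u v ⟨hu, h1⟩ ⟨hv, h2⟩
    refine ⟨hu.mul hv, ?_⟩
    rw [← cl_mul hu hv]
    exact (KB hB).mul_mem h1 h2
  add_mem' := by
    rintro u v ⟨hu, h1⟩ ⟨hv, h2⟩
    refine ⟨hu.add hv, ?_⟩
    rw [← cl_add hu hv]
    exact (KB hB).add_mem h1 h2
  algebraMap_mem' := fun c => ⟨Meromorphic.const c, by
    have h1 : cl (algebraMap ℂ (ℂ → ℂ) c) (Meromorphic.const c) = algebraMap ℂ MK c := rfl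
    rw [h1]
    exact (KB hB).algebraMap_mem c⟩

theorem KB_dep (hB : TrOne B) {a b : MK} (ha : a ∈ KB hB) (hb : b ∈ KB hB) :
    ¬ AlgebraicIndependent ℂ ![a, b] := by
  intro hind
  have h1 : IsAlgebraic (BCl hB) a := mem_cloA.1 (mem_KB.1 ha)
  have h2 : IsAlgebraic (BCl hB) b := mem_cloA.1 (mem_KB.1 hb)
  have ht : Transcendental ℂ a := hind.transcendental 0
  have h3 := alg_dep (BCl hB) (BCl_dep hB) h1 h2 ht
  have h4 := hind.transcendental_adjoin (s := {0}) (i := 1) (by simp)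
  have h5 : (![a, b] : Fin 2 → MK) '' {0} = {a} := by
    rw [Set.image_singleton]
    rfl
  rw [h5] at h4
  exact h4 h3

theorem trOne_BA (hB : TrOne B) : TrOne (BA hB) where
  mero := fun _ hb => hb.1
  der := fun b hb => by
    obtain ⟨hb1, hb2⟩ := hb
    refine ⟨hb1.deriv, ?_⟩
    have h1 := (base_KB hB).stable _ hb2
    rwa [MDer_apply, MD_cl] at h1
  dep := fun b hb c hc => by
    have h1 := KB_dep hB hb.2 hc.2
    rw [algebraicIndependent_iff] at h1
    push Not at h1
    obtain ⟨P, hP, hP0⟩ := h1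
    refine ⟨P, hP0, ?_⟩
    have hw : ∀ j, Meromorphic (![b, c] j) := by
      intro j
      fin_cases j
      · exact hb.1
      · exact hc.1
    have h2 := aeval_cl (![b, c]) hw P
    have h3 : (fun j : Fin 2 => cl (![b, c] j) (hw j)) = ![cl b hb.1, cl c hc.1] := by
      funext j
      fin_cases j <;> rfl
    rw [h3, hP] at h2
    have h4 := cl_eq_zero.1 h2.symm
    filter_upwards [h4] with z hz
    have h5 : (fun j : Fin 2 => ![b, c] j z) = ![b z, c z] := by
      funext j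
      fin_cases j <;> rfl
    rw [← h5]
    exact hz

/-- The data of a family of curves. -/
structure Par {N : ℕ} (h : ℂ → Fin N → ℂ) (s M : ℕ) where
  /-- coefficient functions -/
  y : ℂ → Fin s → ℂ
  /-- parameters -/
  x : ℂ → Fin M → ℂ
  /-- polynomials -/
  Q : Fin N → MvPolynomial (Fin s ⊕ Fin M) ℂ
  /-- common factor -/
  d : ℂ → ℂ
  my : ∀ i, Meromorphic (fun z => y z i)
  fQ : ∀ᶠ z in codiscrete ℂ, ∀ j, MvPolynomial.eval (Sum.elim (y z) (x z)) (Q j) = d z * h z j
  d0 : ∀ᶠ z in codiscrete ℂ, d z ≠ 0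
  zero : ∀ H : MvPolynomial (Fin s ⊕ Fin M) ℂ,
        (∀ᶠ z in codiscrete ℂ, MvPolynomial.eval (Sum.elim (y z) (x z)) H = 0) →
        ∀ v : Fin M → ℂ, ∀ᶠ z in codiscrete ℂ, MvPolynomial.eval (Sum.elim (y z) v) H = 0

namespace Par

variable {N s M : ℕ} {h : ℂ → Fin N → ℂ} (D : Par h s M)

/-- the point of the variety with parameters `z, v` -/
noncomputable def Ψ (z : ℂ) (v : Fin M → ℂ) (j : Fin N) : ℂ :=
  MvPolynomial.eval (Sum.elim (D.y z) v) (D.Q j)

/-- the set where the coefficient functions are analytic -/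
def Om : Set ℂ := {z | ∀ i, AnalyticAt ℂ (fun z => D.y z i) z}

theorem Om_codis : D.Om ∈ codiscrete ℂ := eventually_all.2 fun i => mero_an (D.my i)

theorem ev_mem {S : Subalgebra ℂ (ℂ → ℂ)} (hy : ∀ i, (fun z => D.y z i) ∈ S)
    (H : MvPolynomial (Fin s ⊕ Fin M) ℂ) (v : Fin M → ℂ) :
    (fun z => MvPolynomial.eval (Sum.elim (D.y z) v) H) ∈ S := by
  induction H using MvPolynomial.induction_on with
  | C a =>
    simp only [eval_C]
    exact S.algebraMap_mem a
  | add p q hp hq =>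
    simp only [map_add]
    exact S.add_mem hp hq
  | mul_X p j hp =>
    simp only [map_mul, eval_X]
    rcases j with j | j
    · exact S.mul_mem hp (hy j)
    · exact S.mul_mem hp (S.algebraMap_mem (v j))

theorem ev_an {z1 : ℂ} (hz : z1 ∈ D.Om) (H : MvPolynomial (Fin s ⊕ Fin M) ℂ) (v : Fin M → ℂ) :
    AnalyticAt ℂ (fun z => MvPolynomial.eval (Sum.elim (D.y z) v) H) z1 := by
  let S : Subalgebra ℂ (ℂ → ℂ) :=
    { carrier := {f | AnalyticAt ℂ f z1}
      mul_mem' := fun h1 h2 => h1.mul h2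
      add_mem' := fun h1 h2 => h1.add h2
      algebraMap_mem' := fun c => analyticAt_const }
  exact D.ev_mem (S := S) hz H v

theorem rel_Ψ {G : MvPolynomial (Fin N) ℂ} {e : ℕ} (hGe : G.IsHomogeneous e)
    (hG : ∀ᶠ z in codiscrete ℂ, MvPolynomial.eval (h z) G = 0) {z : ℂ}
    (hzO : z ∈ D.Om) (v : Fin M → ℂ) : MvPolynomial.eval (D.Ψ z v) G = 0 := by
  have h1 : ∀ y : Fin s ⊕ Fin M → ℂ, MvPolynomial.eval y (MvPolynomial.bind₁ D.Q G) =
      MvPolynomial.eval (fun j => MvPolynomial.eval y (D.Q j)) G := by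
    intro y
    rw [MvPolynomial.eval, MvPolynomial.eval₂Hom_bind₁]
    rfl
  set H := MvPolynomial.bind₁ D.Q G with hH
  have h2 : ∀ᶠ z in codiscrete ℂ, MvPolynomial.eval (Sum.elim (D.y z) (D.x z)) H = 0 := by
    filter_upwards [hG, D.fQ] with z hz hz'
    rw [h1]
    have h3 : (fun j => MvPolynomial.eval (Sum.elim (D.y z) (D.x z)) (D.Q j)) =
        fun j => D.d z * h z j := funext hz'
    rw [h3, Pool.Agent.TH143.EL.eval_smul_homog hGe, hz, mul_zero]
  have h3 := D.zero H h2 v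
  have h4 := (near_of_codis (D.ev_an hzO H v) h3).self_of_nhds
  rw [h1] at h4
  exact h4

/-- The polynomial curves in the family. -/
theorem exists_line (z : ℂ) (x x' : Fin M → ℂ) : ∃ P : Fin N → Polynomial ℂ, ∀ j t,
      (P j).eval t = D.Ψ z (fun l => x l + t * (x' l - x l)) j := by
  let V : Fin s ⊕ Fin M → Polynomial ℂ := Sum.elim (fun i => Polynomial.C (D.y z i))
    (fun l => Polynomial.C (x l) + Polynomial.X * Polynomial.C (x' l - x l))
  refine ⟨fun j => aeval V (D.Q j), fun j t => ?_⟩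
  have h1 := MvPolynomial.comp_aeval_apply (f := V) (Polynomial.aeval t) (D.Q j)
  rw [Polynomial.coe_aeval_eq_eval] at h1
  rw [h1, MvPolynomial.aeval_eq_eval, Ψ]
  congr 2
  funext i
  rcases i with i | i
  · simp [V]
  · simp [V]

end Par

/-- **Dichotomy.** -/
theorem Par.dich {N s M : ℕ} {h : ℂ → Fin (N + 1) → ℂ} (D : Par h s M)
    {I I' : Ideal (MvPolynomial (Fin (N + 1)) ℂ)} (hR : RatCurvesIn (RingHom.id ℂ) I I')
    (hI : ∀ᶠ z in codiscrete ℂ, ∀ G ∈ I, (∃ d, G.IsHomogeneous d) →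
      MvPolynomial.eval (h z) G = 0)
    (h0 : ∀ᶠ z in codiscrete ℂ, h z ≠ 0) :
    (∀ᶠ z in codiscrete ℂ, ∀ G ∈ I', (∃ d, G.IsHomogeneous d) →
      MvPolynomial.eval (h z) G = 0) ∨
    ∃ v : Fin M → ℂ, ∀ᶠ z in codiscrete ℂ, D.Ψ z v ≠ 0 ∧
      ∀ j k, D.Ψ z v j * h z k = D.Ψ z v k * h z j := by
  have hOm : ∀ᶠ z in codiscrete ℂ, z ∈ D.Om := D.Om_codis
  have hUm : ∀ v j, Meromorphic (fun z => D.Ψ z v j) := by
    intro v j
    let S : Subalgebra ℂ (ℂ → ℂ) := MerS
    exact D.ev_mem (S := S) D.my (D.Q j) v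
  have hUa : ∀ v j z, z ∈ D.Om → AnalyticAt ℂ (fun z => D.Ψ z v j) z := fun v j z hz =>
    D.ev_an hz (D.Q j) v
  by_cases hcase : ∃ z0 x0 x1 j k, z0 ∈ D.Om ∧
      D.Ψ z0 x0 j * D.Ψ z0 x1 k ≠ D.Ψ z0 x1 j * D.Ψ z0 x0 k
  · left
    obtain ⟨z0, x0, x1, j, k, hz0, hne⟩ := hcase
    have hw : ∀ᶠ z in codiscrete ℂ,
        D.Ψ z x0 j * D.Ψ z x1 k - D.Ψ z x1 j * D.Ψ z x0 k ≠ 0 := by
      refine mero_ne (((hUm x0 j).mul (hUm x1 k)).sub ((hUm x1 j).mul (hUm x0 k))) ?_
      intro hcon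
      have h1 := near_of_codis (x := z0) (u := fun z => D.Ψ z x0 j * D.Ψ z x1 k -
        D.Ψ z x1 j * D.Ψ z x0 k) (((hUa x0 j z0 hz0).mul (hUa x1 k z0 hz0)).sub
          ((hUa x1 j z0 hz0).mul (hUa x0 k z0 hz0))) hcon
      have h2 := h1.self_of_nhds
      exact hne (sub_eq_zero.1 h2)
    have hI2 : ∀ G ∈ I, (∃ d, G.IsHomogeneous d) →
        ∀ᶠ z in codiscrete ℂ, MvPolynomial.eval (h z) G = 0 := fun G hG hGh =>
      hI.mono fun z hz => hz G hG hGh
    filter_upwards [hw, hOm, h0, D.fQ, D.d0] with z hwz hOz hhz hfz hdz G hG hGh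
    have hΨx : ∀ j, D.Ψ z (D.x z) j = D.d z * h z j := hfz
    obtain ⟨x', j', k', hx'⟩ : ∃ x' j' k', h z j' * D.Ψ z x' k' ≠ D.Ψ z x' j' * h z k' := by
      by_contra hcon
      push Not at hcon
      obtain ⟨l, hl⟩ := Function.ne_iff.1 hhz
      have hl' : h z l ≠ 0 := hl
      apply hwz
      have e1 := hcon x0 l j
      have e2 := hcon x0 l k
      have e3 := hcon x1 l j
      have e4 := hcon x1 l k
      have h5 : h z l * h z l * (D.Ψ z x0 j * D.Ψ z x1 k - D.Ψ z x1 j * D.Ψ z x0 k) = 0 := by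
        have e5 : h z l * h z l * (D.Ψ z x0 j * D.Ψ z x1 k - D.Ψ z x1 j * D.Ψ z x0 k) =
            (h z l * D.Ψ z x0 j) * (h z l * D.Ψ z x1 k) -
              (h z l * D.Ψ z x1 j) * (h z l * D.Ψ z x0 k) := by ring
        rw [e5, e1, e2, e3, e4]
        ring
      exact (mul_eq_zero.1 h5).resolve_left (mul_ne_zero hl' hl')
    obtain ⟨P, hP⟩ := D.exists_line z (D.x z) x'
    have hP0 : ∀ j, (P j).eval 0 = D.d z * h z j := by
      intro j
      have e1 : (fun l => D.x z l + 0 * (x' l - D.x z l)) = D.x z := by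
        funext l
        ring
      rw [hP, e1, hΨx]
    have hP1 : ∀ j, (P j).eval 1 = D.Ψ z x' j := by
      intro j
      have e1 : (fun l => D.x z l + 1 * (x' l - D.x z l)) = x' := by
        funext l
        ring
      rw [hP, e1]
    have h3 := hR P (fun u G hG hGh => by
      rw [eval₂_id]
      have e1 : (fun j => (P j).eval u) =
          D.Ψ z (fun l => D.x z l + u * (x' l - D.x z l)) := funext fun j => hP j u
      rw [e1]
      exact D.rel_Ψ hGh.choose_spec (hI2 G hG hGh) hOz _) ⟨j', k', 0, 1, by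
        rw [hP0, hP0, hP1, hP1]
        intro h4
        apply hx'
        have h5 : D.d z * (h z j' * D.Ψ z x' k') = D.d z * (D.Ψ z x' j' * h z k') := by
          linear_combination h4
        exact mul_left_cancel₀ hdz h5⟩ 0 G hG hGh
    rw [eval₂_id] at h3
    have e1 : (fun j => (P j).eval 0) = fun j => D.d z * h z j := funext hP0
    obtain ⟨e, he⟩ := hGh
    rw [e1, Pool.Agent.TH143.EL.eval_smul_homog he] at h3
    exact (mul_eq_zero.1 h3).resolve_left (pow_ne_zero _ hdz)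
  · right
    push Not at hcase
    obtain ⟨z1, ⟨⟨⟨hz1, hh1⟩, hf1⟩, hd1⟩⟩ := (((hOm.and h0).and D.fQ).and D.d0).exists
    refine ⟨D.x z1, ?_⟩
    obtain ⟨l, hl⟩ := Function.ne_iff.1 hh1
    have hl' : h z1 l ≠ 0 := hl
    have hne : ∀ᶠ z in codiscrete ℂ, D.Ψ z (D.x z1) l ≠ 0 := by
      refine mero_ne (hUm _ _) ?_
      intro hcon
      have h1 := (near_of_codis (hUa (D.x z1) l z1 hz1) hcon).self_of_nhds
      have h2 : D.Ψ z1 (D.x z1) l = D.d z1 * h z1 l := hf1 l
      rw [h2] at h1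
      exact (mul_ne_zero hd1 hl') h1
    filter_upwards [hne, hOm, D.fQ, D.d0] with z hz hOz hfz hdz
    refine ⟨fun h1 => hz (congrFun h1 l), fun j k => ?_⟩
    have h3 := hcase z (D.x z1) (D.x z) j k hOz
    have h4 : ∀ j, D.Ψ z (D.x z) j = D.d z * h z j := hfz
    rw [h4, h4] at h3
    apply mul_left_cancel₀ hdz
    linear_combination h3

/-- coefficients -/
theorem exists_coeffs {K₀ : IntermediateField ℂ MK} {M n : ℕ} (F : Fin n → MvPolynomial (Fin M) K₀) :
    ∃ (s : ℕ) (c : Fin s → K₀) (Q : Fin n → MvPolynomial (Fin s ⊕ Fin M) ℂ),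
      ∀ (x : Fin M → MK) (j : Fin n),
        aeval (Sum.elim (fun i => (c i : MK)) x) (Q j) = aeval x (F j) := by
  classical
  -- one polynomial
  have h1 : ∀ P : MvPolynomial (Fin M) K₀, ∃ (s : ℕ) (c : Fin s → K₀)
      (Q : MvPolynomial (Fin s ⊕ Fin M) ℂ), ∀ x : Fin M → MK,
        aeval (Sum.elim (fun i => (c i : MK)) x) Q = aeval x P := by
    intro P
    let e := P.support.equivFin.symm
    refine ⟨P.support.card, fun i => P.coeff (e i).1,
      ∑ i, X (Sum.inl i) * monomial ((e i).1.mapDomain Sum.inr) 1, fun x => ?_⟩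
    rw [map_sum]
    conv_rhs => rw [P.as_sum]
    rw [map_sum, ← Finset.sum_coe_sort P.support
      (fun m => aeval x (monomial m (P.coeff m)))]
    rw [← e.sum_comp]
    refine Finset.sum_congr rfl fun i _ => ?_
    rw [map_mul, aeval_X, Sum.elim_inl, ← rename_monomial, aeval_rename, Sum.elim_comp_inr,
      aeval_monomial, aeval_monomial, map_one, one_mul]
    rfl
  choose s c Q hQ using fun j => h1 (F j)
  let e : (Σ j, Fin (s j)) ≃ Fin (Fintype.card (Σ j, Fin (s j))) := Fintype.equivFin _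
  let cc : (Σ j, Fin (s j)) → K₀ := fun p => c p.1 p.2
  refine ⟨_, fun i => cc (e.symm i),
    fun j => rename (Sum.map (fun i => e ⟨j, i⟩) id) (Q j), fun x j => ?_⟩
  rw [aeval_rename, ← hQ j x]
  congr 2
  funext i
  rcases i with i | i
  · have h := e.symm_apply_apply ⟨j, i⟩
    change ((cc (e.symm (e ⟨j, i⟩)) : K₀) : MK) = ((c j i : K₀) : MK)
    rw [h]
  · rfl

/-- the representation of finitely many meromorphic functions -/
theorem exists_par {K₀ : IntermediateField ℂ MK} {N M : ℕ} {h : ℂ → Fin N → ℂ}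
    (hm : ∀ j, Meromorphic (fun z => h z j)) {x : Fin M → MK} (hx : AlgebraicIndependent K₀ x)
    (hhx : ∀ j, cl (fun z => h z j) (hm j) ∈ IntermediateField.adjoin K₀ (Set.range x)) :
    ∃ (s : ℕ) (D : Par h s M), ∀ i, cl (fun z => D.y z i) (D.my i) ∈ K₀ := by
  classical
  have h1 : ∀ j, ∃ r s : MvPolynomial (Fin M) K₀, aeval x s ≠ 0 ∧
      cl (fun z => h z j) (hm j) * aeval x s = aeval x r := by
    intro j
    obtain ⟨r, s, hrs⟩ := (IntermediateField.mem_adjoin_range_iff K₀ x _).1 (hhx j)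
    by_cases hs : aeval x s = 0
    · refine ⟨0, 1, by rw [map_one]; exact one_ne_zero, ?_⟩
      rw [hrs, hs, div_zero, zero_mul, map_zero]
    · exact ⟨r, s, hs, by rw [hrs, div_mul_cancel₀ _ hs]⟩
  choose r s hs hrs using h1
  set E : MvPolynomial (Fin M) K₀ := ∏ j, s j with hE
  have hE0 : aeval x E ≠ 0 := by
    rw [hE, map_prod]
    exact Finset.prod_ne_zero_iff.2 fun j _ => hs j
  let F : Fin N → MvPolynomial (Fin M) K₀ := fun j => r j * ∏ i ∈ Finset.univ.erase j, s i
  have hF : ∀ j, aeval x (F j) = aeval x E * cl (fun z => h z j) (hm j) := by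
    intro j
    have h2 : E = s j * ∏ i ∈ Finset.univ.erase j, s i :=
      (Finset.mul_prod_erase _ _ (Finset.mem_univ j)).symm
    rw [h2, map_mul, map_mul, ← hrs j]
    ring
  obtain ⟨S, c, Q, hQ⟩ := exists_coeffs F
  choose y hy hyc using fun i => cl_surj ((c i : K₀) : MK)
  choose X hX hXc using fun i => cl_surj (x i)
  obtain ⟨d, hd, hdc⟩ := cl_surj (aeval x E)
  have hw : ∀ i : Fin S ⊕ Fin M, Meromorphic ((Sum.elim y X : Fin S ⊕ Fin M → ℂ → ℂ) i) := by
    intro i
    rcases i with i | i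
    · exact hy i
    · exact hX i
  have hcl : (fun i => cl ((Sum.elim y X : Fin S ⊕ Fin M → ℂ → ℂ) i) (hw i)) =
      Sum.elim (fun i => ((c i : K₀) : MK)) x := by
    funext i
    rcases i with i | i
    · exact hyc i
    · exact hXc i
  have hpt : ∀ z, (fun i => (Sum.elim y X : Fin S ⊕ Fin M → ℂ → ℂ) i z) =
      Sum.elim (fun i => y i z) (fun i => X i z) := by
    intro z
    funext i
    rcases i with i | i <;> rfl
  have hvalx : ∀ H : MvPolynomial (Fin S ⊕ Fin M) ℂ, ∃ hH : Meromorphic (fun z =>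
      MvPolynomial.eval (Sum.elim (fun i => y i z) (fun i => X i z)) H),
      aeval (Sum.elim (fun i => ((c i : K₀) : MK)) x) H =
        cl (fun z => MvPolynomial.eval (Sum.elim (fun i => y i z) (fun i => X i z)) H) hH := by
    intro H
    have h2 := aeval_cl (Sum.elim y X : Fin S ⊕ Fin M → ℂ → ℂ) hw H
    rw [hcl] at h2
    have h3 : (fun z => MvPolynomial.eval (fun i => (Sum.elim y X : Fin S ⊕ Fin M → ℂ → ℂ) i z) H)
        = fun z => MvPolynomial.eval (Sum.elim (fun i => y i z) (fun i => X i z)) H := by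
      funext z
      rw [hpt z]
    have h4 : Meromorphic (fun z =>
        MvPolynomial.eval (Sum.elim (fun i => y i z) (fun i => X i z)) H) := by
      rw [← h3]
      exact mero_eval hw H
    refine ⟨h4, ?_⟩
    rw [h2, cl_eq]
    exact Eventually.of_forall fun z => congrFun h3 z
  refine ⟨S, ⟨fun z i => y i z, fun z i => X i z, Q, d, hy, ?_, ?_, fun H hH v => ?_⟩, fun i => ?_⟩
  · refine eventually_all.2 fun j => ?_
    obtain ⟨h2, h3⟩ := hvalx (Q j)
    rw [hQ x j, hF j, ← hdc, cl_mul, cl_eq] at h3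
    filter_upwards [h3] with z hz
    rw [← hz]
    rfl
  · apply mero_ne hd
    intro h2
    apply hE0
    rw [← hdc, cl_eq_zero]
    exact h2
  · -- specialization of the parameters
    obtain ⟨h2, h3⟩ := hvalx H
    rw [cl_eq_zero.2 hH] at h3
    -- the polynomial over `K₀`
    let P : MvPolynomial (Fin M) K₀ :=
      aeval (Sum.elim (fun i => C (c i)) (fun i => MvPolynomial.X i)) H
    have hP : ∀ w : Fin M → MK, aeval w P =
        aeval (Sum.elim (fun i => ((c i : K₀) : MK)) w) H := by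
      intro w
      have h4 := MvPolynomial.comp_aeval_apply (f := (Sum.elim (fun i => C (c i))
        (fun i => MvPolynomial.X i) : Fin S ⊕ Fin M → MvPolynomial (Fin M) K₀))
        ((aeval w : MvPolynomial (Fin M) K₀ →ₐ[K₀] MK).restrictScalars ℂ) H
      have h5 : ((aeval w : MvPolynomial (Fin M) K₀ →ₐ[K₀] MK).restrictScalars ℂ) P =
        aeval w P := rfl
      rw [← h5, h4]
      congr 2
      funext i
      rcases i with i | i
      · simp
      · simp
    have hP0 : P = 0 := hx (by rw [hP x, h3, map_zero])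
    have h4 := hP (fun i => algebraMap ℂ MK (v i))
    rw [hP0, map_zero] at h4
    have hw' : ∀ i : Fin S ⊕ Fin M, Meromorphic ((Sum.elim y (fun i _ => v i) :
        Fin S ⊕ Fin M → ℂ → ℂ) i) := by
      intro i
      rcases i with i | i
      · exact hy i
      · exact Meromorphic.const (v i)
    have h5 := aeval_cl (Sum.elim y (fun i _ => v i) : Fin S ⊕ Fin M → ℂ → ℂ) hw' H
    have h6 : (fun i => cl ((Sum.elim y (fun i _ => v i) : Fin S ⊕ Fin M → ℂ → ℂ) i) (hw' i)) =
        Sum.elim (fun i => ((c i : K₀) : MK)) (fun i => algebraMap ℂ MK (v i)) := by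
      funext i
      rcases i with i | i
      · exact hyc i
      · rfl
    rw [h6, ← h4] at h5
    have h7 := cl_eq_zero.1 h5.symm
    filter_upwards [h7] with z hz
    rw [← hz]
    congr 2
    funext i
    rcases i with i | i <;> rfl
  · have h2 : cl (fun z => y i z) (hy i) = ((c i : K₀) : MK) := hyc i
    rw [h2]
    exact (c i).2

variable {N : ℕ}

/-- **Dichotomy for tower curves.** -/
theorem tow_dichotomy {I I' : Ideal (MvPolynomial (Fin (N + 1)) ℂ)}
    (hR : RatCurvesIn (RingHom.id ℂ) I I') (hB : TrOne B) {ψ : ℂ → ℂ} (hψ : TowFun B ψ)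
    (hd : Differentiable ℂ ψ) (hn : NCE ψ) {f : ℂ → ℙ ℂ (Fin (N + 1) → ℂ)} (hf : HolMap f)
    {h : ℂ → Fin (N + 1) → ℂ} (hh : ∀ j, (fun z => h z j) ∈ TowRing B ψ)
    (hr : ∀ᶠ z in codiscrete ℂ, Rep (f z) (h z)) (hI : ∀ z, InV I (f z))
    (hnc : ∃ z w, f z ≠ f w) : (∀ z, InV I' (f z)) ∨ DPer f := by
  classical
  obtain ⟨M, x, hx, hhx⟩ := exists_paramK hB hψ hd hn hh
  obtain ⟨s, D, hD⟩ := exists_par _ hx hhx
  rcases D.dich hR (by
      filter_upwards [hr] with z hz
      exact (inV_iff hz).1 (hI z)) (by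
      filter_upwards [hr] with z hz
      exact hz.1) with h1 | ⟨v, hv⟩
  · left
    intro z
    apply inV_of_punct hf
    filter_upwards [codis_ev h1 z, codis_ev hr z] with y h2 h3
    rw [inV_iff h3]
    exact h2
  · have hUA : ∀ j, (fun z => D.Ψ z v j) ∈ BA hB := fun j =>
      D.ev_mem (S := BA hB) (fun i => ⟨D.my i, hD i⟩) (D.Q j) v
    have hUm : ∀ j, Meromorphic (fun z => D.Ψ z v j) := fun j => (hUA j).1
    exact dichotomy hR (trOne_BA hB) hf (h := fun j z => D.Ψ z v j) hUm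
      (fun j => linB_of_mem (trOne_BA hB) (hUA j)) (by
        filter_upwards [hv, hr] with z h2 h3
        refine (rep_iff h3).2 ⟨h2.1, fun j k => ?_⟩
        have h4 := h2.2 k j
        linear_combination h4) hI hnc

end Pool.Agent.TH600.LK
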