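import Pool.Agent.TH600.LK.Dich
import Pool.Agent.TH143.EL.Ell

/-!
# Maps from tori are given by towers
-/

set_option autoImplicit false

namespace Pool.Agent.TH600.LK

open Filter Topology MvPolynomial
open scoped LinearAlgebra.Projectivization
open Pool.Agent.TH143.EL hiding evS
open Pool.Agent.TH143.HE (RatCurvesIn IsPtP NonConst)
open Pool.Agent.TH600.LM

variable {N : ℕ}

/-- coordinates of a map from a torus -/
theorem torus_coords_ell {ω₁ ω₂ : ℂ} {f : ℂ → ℙ ℂ (Fin (N + 1) → ℂ)} (hf : HolMap f)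
    (h1 : ∀ z, f (z + ω₁) = f z) (h2 : ∀ z, f (z + ω₂) = f z) :
    ∃ h : ℂ → Fin (N + 1) → ℂ, (∀ j, (fun z => h z j) ∈ Ell ω₁ ω₂) ∧
      ∀ᶠ z in codiscrete ℂ, Rep (f z) (h z) := by
  obtain ⟨j0, hj0⟩ := Function.ne_iff.1 (f 0).rep_nonzero
  have hj0' : (f 0).rep j0 ≠ 0 := hj0
  let h : Fin (N + 1) → ℂ → ℂ := fun j z => (f z).rep j / (f z).rep j0
  have hloc : ∀ a, ∃ g : Fin (N + 1) → ℂ → ℂ, (∀ j, AnalyticAt ℂ (g j) a) ∧
      ∀ j, h j =ᶠ[𝓝 a] fun z => g j z / g j0 z := by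
    intro a
    obtain ⟨g, hg, hgr⟩ := hf a
    refine ⟨g, hg, fun j => ?_⟩
    filter_upwards [hgr] with z hz
    obtain ⟨h3, h4⟩ := (rep_iff hz).1 (rep_rep (f z))
    change (f z).rep j / (f z).rep j0 = g j z / g j0 z
    have h5 := h4 j j0
    by_cases h6 : g j0 z = 0
    · have h7 : (f z).rep j0 = 0 := by
        obtain ⟨k, hk⟩ := Function.ne_iff.1 hz.1
        have hk' : g k z ≠ 0 := hk
        have h8 := h4 k j0
        rw [h6, zero_mul] at h8
        exact (mul_eq_zero.1 h8).resolve_left hk'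
      rw [h6, h7, div_zero, div_zero]
    · have h7 : (f z).rep j0 ≠ 0 := by
        intro h7
        rw [h7, mul_zero] at h5
        obtain ⟨k, hk⟩ := Function.ne_iff.1 h3
        have hk' : (f z).rep k ≠ 0 := hk
        have h8 := h4 k j0
        rw [h7, mul_zero] at h8
        exact (mul_ne_zero h6 hk') h8.symm
      rw [div_eq_div_iff h7 h6]
      linear_combination -h5
  have hm : ∀ j, Meromorphic (h j) := by
    intro j a
    obtain ⟨g, hg, hge⟩ := hloc a
    exact ((hg j).meromorphicAt.div (hg j0).meromorphicAt).congr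
      ((hge j).symm.filter_mono nhdsWithin_le_nhds)
  have hE : ∀ j, h j ∈ Ell ω₁ ω₂ := fun j => ⟨hm j, fun z => by simp only [h, h1], fun z => by
    simp only [h, h2]⟩
  refine ⟨fun z j => h j z, hE, ?_⟩
  -- the coordinate `j0` is one outside of a discrete set
  have h3 : ∀ᶠ z in codiscrete ℂ, h j0 z = 1 := by
    apply mero_id2 (hm j0) (Meromorphic.const 1) (x := 0)
    apply freq_of_ev
    obtain ⟨g, hg, hgr⟩ := hf 0
    have h4 : g j0 0 ≠ 0 := by
      intro h6
      obtain ⟨h7, h8⟩ := (rep_iff hgr.self_of_nhds).1 (rep_rep (f 0))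
      obtain ⟨k, hk⟩ := Function.ne_iff.1 hgr.self_of_nhds.1
      have hk' : g k 0 ≠ 0 := hk
      have h9 := h8 k j0
      rw [h6, zero_mul] at h9
      exact hj0' ((mul_eq_zero.1 h9).resolve_left hk')
    filter_upwards [hgr, (hg j0).continuousAt.eventually_ne h4] with z hz hz'
    change (f z).rep j0 / (f z).rep j0 = 1
    apply div_self
    intro h7
    obtain ⟨h3, h4⟩ := (rep_iff hz).1 (rep_rep (f z))
    obtain ⟨k, hk⟩ := Function.ne_iff.1 h3
    have hk' : (f z).rep k ≠ 0 := hk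
    have h8 := h4 k j0
    rw [h7, mul_zero] at h8
    exact (mul_ne_zero hz' hk') h8.symm
  filter_upwards [h3] with z hz
  have h4 : (f z).rep j0 ≠ 0 := by
    intro h5
    change (f z).rep j0 / (f z).rep j0 = 1 at hz
    rw [h5, div_zero] at hz
    exact zero_ne_one hz
  have h5 : (fun j => h j z) = fun j => ((f z).rep j0)⁻¹ * (f z).rep j := by
    funext j
    simp only [h]
    rw [div_eq_mul_inv, mul_comm]
  rw [h5]
  exact (rep_smul (inv_ne_zero h4)).2 (rep_rep (f z))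

/-- the identity is a tower function -/
theorem towFun_id (B : Subalgebra ℂ (ℂ → ℂ)) : TowFun B fun z => z := by
  refine TowFun.prim (mero_of_diff differentiable_id) ?_
  have h1 : deriv (fun z : ℂ => z) = (1 : ℂ → ℂ) := by
    funext z
    exact deriv_id z
  rw [h1]
  exact TowFun.base B.one_mem

/-- **Main theorem for tower curves.** -/
theorem tow_main {I I' : Ideal (MvPolynomial (Fin (N + 1)) ℂ)} (hT : TorusMapsIn I I')
    {B : Subalgebra ℂ (ℂ → ℂ)} (hB : TrOne B) {ψ : ℂ → ℂ} (hψ : TowFun B ψ)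
    (hd : Differentiable ℂ ψ) (hn : NCE ψ) {f : ℂ → ℙ ℂ (Fin (N + 1) → ℂ)} (hf : HolMap f)
    {h : ℂ → Fin (N + 1) → ℂ} (hh : ∀ j, (fun z => h z j) ∈ TowRing B ψ)
    (hr : ∀ᶠ z in codiscrete ℂ, Rep (f z) (h z)) (hI : ∀ z, InV I (f z))
    (hnc : ∃ z w, f z ≠ f w) : ∀ z, InV I' (f z) := by
  rcases tow_dichotomy (ratCurves_of_torus hT) hB hψ hd hn hf hh hr hI hnc with
    h1 | ⟨ω₁, ω₂, h1, h2, h3⟩
  · exact h1
  · exact hT ω₁ ω₂ h1 f hf h2 h3 hI hnc

end Pool.Agent.TH600.LK
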