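import Pool.Agent.TH600.LE.Root

/-!
# Towers of primitives and exponentials over an algebraically closed subfield
-/

set_option autoImplicit false

namespace Pool.Agent.TH600.LK

open Polynomial Pool.Agent.TH600.LC Pool.Agent.TH600.LE

variable {k E U : Type} [Field k] [Field E] [Algebra k E] [AddCommGroup U] [Module k U]

/-- a differential subfield which is algebraically closed in the large field -/
structure Base (D : Derivation k E E) (K₀ : IntermediateField k E) : Prop where
  stable : ∀ x ∈ K₀, D x ∈ K₀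
  closed : ∀ x, IsAlgebraic K₀ x → x ∈ K₀

/-- The subalgebras obtained by adjoining transcendental primitives and exponentials to the subfield
`K₀`, with the groups of exponents. -/
inductive Tow (D : Derivation k E E) (ι : U →ₗ[k] E) (ex : U → E) (K₀ : IntermediateField k E) :
    Subalgebra k E → AddSubgroup U → Prop
  | base : Tow D ι ex K₀ K₀.toSubalgebra ⊥
  | prim {A : Subalgebra k E} {L : AddSubgroup U} {t : E} : Tow D ι ex K₀ A L →
      Transcendental A t → D t ∈ A → Tow D ι ex K₀ (Pol A t) L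
  | expo {A : Subalgebra k E} {L : AddSubgroup U} {w : U} : Tow D ι ex K₀ A L → ι w ∈ A →
      Transcendental A (ex w) →
      Tow D ι ex K₀ (Lau A (ex w)) (L ⊔ AddSubgroup.zmultiples w)

variable {D : Derivation k E E} {ι : U →ₗ[k] E} {ex : U → E} {K₀ : IntermediateField k E}

theorem zsmul_ex (h : ExpData D ι ex) (n : ℤ) (u : U) : ex (n • u) = ex u ^ n := by
  obtain ⟨m, rfl | rfl⟩ := n.eq_nat_or_neg
  · rw [natCast_zsmul, h.nsmul, zpow_natCast]
  · rw [neg_smul, natCast_zsmul, h.inv, h.nsmul, zpow_neg, zpow_natCast]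

namespace Tow

variable (h : ExpData D ι ex) (hK : Base D K₀)

theorem le {A : Subalgebra k E} {L : AddSubgroup U} (hA : Tow D ι ex K₀ A L) :
    K₀.toSubalgebra ≤ A := by
  induction hA with
  | base => exact le_rfl
  | @prim A L t _ _ _ ih => exact ih.trans (le_Pol A t)
  | @expo A L w _ _ _ ih => exact ih.trans (le_Lau A _)

include h in
theorem lat {A : Subalgebra k E} {L : AddSubgroup U} (hA : Tow D ι ex K₀ A L) :
    ∀ w ∈ L, ι w ∈ A ∧ ex w ∈ A := by
  induction hA with
  | base =>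
    intro w hw
    rw [AddSubgroup.mem_bot] at hw
    rw [hw, map_zero, h.zero]
    exact ⟨zero_mem _, one_mem _⟩
  | @prim A L t _ _ _ ih =>
    intro w hw
    exact ⟨le_Pol A t (ih w hw).1, le_Pol A t (ih w hw).2⟩
  | @expo A L v _ hv _ ih =>
    intro w hw
    obtain ⟨w₁, h1, w₂, h2, rfl⟩ := AddSubgroup.mem_sup.1 hw
    obtain ⟨n, rfl⟩ := AddSubgroup.mem_zmultiples_iff.1 h2
    constructor
    · rw [map_add, map_zsmul]
      exact le_Lau A _ (A.add_mem (ih w₁ h1).1 (A.zsmul_mem hv n))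
    · rw [h.add, zsmul_ex h]
      refine (Lau A (ex v)).mul_mem (le_Lau A _ (ih w₁ h1).2) ?_
      obtain ⟨m, rfl | rfl⟩ := n.eq_nat_or_neg
      · rw [zpow_natCast]
        exact (Lau A (ex v)).pow_mem (self_Lau A _) m
      · rw [zpow_neg, zpow_natCast, ← inv_pow]
        exact (Lau A (ex v)).pow_mem (inv_Lau A (h.ne v)) m

include h hK

theorem stable {A : Subalgebra k E} {L : AddSubgroup U} (hA : Tow D ι ex K₀ A L) :
    ∀ x ∈ A, D x ∈ A := by
  induction hA with
  | base => exact hK.stable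
  | prim _ _ ht ih => exact stable_Pol ih ht
  | @expo A L w _ hw _ ih => exact stable_Lau ih (ih _ hw) (h.der w)

theorem unit_form [CharZero E] {A : Subalgebra k E} {L : AddSubgroup U} (hA : Tow D ι ex K₀ A L)
    {P a : E} (hP : P ∈ A) (hP0 : P ≠ 0) (ha : a ∈ A) (hPa : D P = a * P) :
    ∃ w ∈ L, ∃ c ∈ K₀, P = c * ex w := by
  induction hA generalizing P a with
  | base => exact ⟨0, zero_mem _, P, hP, by rw [h.zero, mul_one]⟩
  | @prim A L t hA htr ht ih =>
    obtain ⟨h1, h2⟩ := desc_prim h.hconst (stable h hK hA) htr ht hP hP0 ha hPa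
    exact ih h1 hP0 h2 hPa
  | @expo A L v hA hv htr ih =>
    obtain ⟨m, n, c, b, hc, hb, h1, h2, h3⟩ := desc_expo h.hconst (stable h hK hA) htr
      (stable h hK hA _ hv) (h.der v) hP hP0 ha hPa
    obtain ⟨w, hw, c', hc', h6⟩ := ih hc h3 hb h2
    refine ⟨w + ((n : ℤ) - m) • v, AddSubgroup.mem_sup.2 ⟨w, hw, _,
      AddSubgroup.mem_zmultiples_iff.2 ⟨_, rfl⟩, rfl⟩, c', hc', ?_⟩
    rw [h.add, zsmul_ex h, zpow_sub₀ (h.ne v), zpow_natCast, zpow_natCast]
    have h7 : ex v ^ m ≠ 0 := pow_ne_zero _ (h.ne v)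
    apply mul_right_cancel₀ h7
    rw [h1, h6]
    field_simp

omit h hK in
theorem ufd (h : ExpData D ι ex) {A : Subalgebra k E} {L : AddSubgroup U}
    (hA : Tow D ι ex K₀ A L) : UniqueFactorizationMonoid A := by
  induction hA with
  | base =>
    have h1 : UniqueFactorizationMonoid K₀ := inferInstance
    exact h1
  | prim _ ht _ ih => exact ufd_Pol ht ih
  | @expo A L w _ _ ht ih => exact ufd_Lau ht (h.ne w) ih

omit hK in
/-- Roots of all exponentials of the group. -/
theorem scale [CharZero k] {A : Subalgebra k E} {L : AddSubgroup U} (hA : Tow D ι ex K₀ A L)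
    {N : ℕ} (hN : 0 < N) :
    ∃ (A' : Subalgebra k E) (L' : AddSubgroup U), Tow D ι ex K₀ A' L' ∧ A ≤ A' ∧
      (∀ x ∈ A', IsAlgebraic A x) ∧ ∀ w ∈ L, ex ((N : k)⁻¹ • w) ∈ A' := by
  induction hA with
  | base =>
    refine ⟨K₀.toSubalgebra, ⊥, Tow.base, le_rfl, fun x hx => ?_, fun w hw => ?_⟩
    · exact isAlgebraic_algebraMap (⟨x, hx⟩ : K₀.toSubalgebra)
    · rw [AddSubgroup.mem_bot] at hw
      rw [hw, smul_zero, h.zero]
      exact one_mem _
  | @prim A L t hA htr ht ih =>
    obtain ⟨A', L', hA', hle, halg, hroot⟩ := ih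
    refine ⟨Pol A' t, L', Tow.prim hA' (trans_ext halg htr) (hle ht),
      Pol_le (hle.trans (le_Pol A' t)) (self_Pol A' t), fun x hx => ?_,
      fun w hw => le_Pol A' t (hroot w hw)⟩
    rw [← mem_cloA]
    have h1 : A' ≤ clo k (Pol A t : Set E) := by
      intro y hy
      have h2 : y ∈ clo k (A : Set E) := mem_cloA.2 (halg y hy)
      exact clo_mono (le_Pol A t) h2
    exact Pol_le h1 (subset_clo _ (self_Pol A t)) hx
  | @expo A L v hA hv htr ih =>
    obtain ⟨A', L', hA', hle, halg, hroot⟩ := ih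
    set s : E := ex ((N : k)⁻¹ • v) with hs
    have hsN : s ^ N = ex v := h.inv_smul hN v
    have hs0 : s ≠ 0 := h.ne _
    have htr' : Transcendental A' s := by
      intro h1
      apply trans_ext halg htr
      rw [← hsN]
      exact h1.pow N
    have hsalg : s ∈ clo k (Lau A (ex v) : Set E) := by
      rw [mem_cloA]
      apply IsAlgebraic.of_pow hN
      rw [hsN]
      exact isAlgebraic_algebraMap (⟨ex v, self_Lau A (ex v)⟩ : Lau A (ex v))
    refine ⟨Lau A' s, _, Tow.expo hA' ?_ htr', ?_, fun x hx => ?_, fun w hw => ?_⟩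
    · rw [map_smul]
      exact A'.smul_mem (hle hv) _
    · refine Lau_le (hle.trans (le_Lau A' s)) (h.ne v) ?_ ?_
      · rw [← hsN]
        exact (Lau A' s).pow_mem (self_Lau A' s) N
      · rw [← hsN, ← inv_pow]
        exact (Lau A' s).pow_mem (inv_Lau A' hs0) N
    · rw [← mem_cloA]
      have h1 : A' ≤ clo k (Lau A (ex v) : Set E) := by
        intro y hy
        have h2 : y ∈ clo k (A : Set E) := mem_cloA.2 (halg y hy)
        exact clo_mono (le_Lau A (ex v)) h2
      exact Lau_le h1 hs0 hsalg (inv_mem_clo hsalg) hx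
    · obtain ⟨w₁, h1, w₂, h2, rfl⟩ := AddSubgroup.mem_sup.1 hw
      obtain ⟨n, rfl⟩ := AddSubgroup.mem_zmultiples_iff.1 h2
      rw [smul_add, h.add, smul_comm, zsmul_ex h]
      refine (Lau A' s).mul_mem (le_Lau A' s (hroot w₁ h1)) ?_
      obtain ⟨m, rfl | rfl⟩ := n.eq_nat_or_neg
      · rw [zpow_natCast]
        exact (Lau A' s).pow_mem (self_Lau A' s) m
      · rw [zpow_neg, zpow_natCast, ← inv_pow]
        exact (Lau A' s).pow_mem (inv_Lau A' hs0) m

/-- **Algebraic exponentials over towers.** -/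
theorem root [CharZero k] [CharZero E] {A : Subalgebra k E} {L : AddSubgroup U}
    (hA : Tow D ι ex K₀ A L) {u : U} (hu : ι u ∈ A) (halg : IsAlgebraic A (ex u)) :
    ∃ (A' : Subalgebra k E) (L' : AddSubgroup U), Tow D ι ex K₀ A' L' ∧ A ≤ A' ∧ ex u ∈ A' := by
  have hst := stable h hK hA
  have hufd := ufd h hA
  obtain ⟨n, P, Q, hn, hP, hQ, hQ0, hPQ⟩ := alg_expo h.hconst hst (hst _ hu) (h.ne u) (h.der u) halg
  obtain ⟨P', Q', hrel, hQ', hx⟩ := reduced hufd hP hQ hQ0 hPQ
  have hP' : (P' : E) ≠ 0 := by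
    rw [← hx]
    exact mul_ne_zero (pow_ne_zero _ (h.ne u)) hQ'
  have hd : D (ex u ^ n) = n * D (ι u) * ex u ^ n := by
    rw [← h.nsmul, h.der, map_nsmul, map_nsmul, nsmul_eq_mul]
  have h1 := congrArg D hx
  rw [Derivation.leibniz, hd] at h1
  simp only [smul_eq_mul] at h1
  have h2 : (n : E) * D (ι u) * P' * Q' + P' * D Q' = Q' * D P' := by
    rw [← h1, ← hx]
    ring
  let DP : A := ⟨D P', hst _ P'.2⟩
  let DQ : A := ⟨D Q', hst _ Q'.2⟩
  let Du : A := ⟨D (ι u), hst _ hu⟩
  have h3 : (n : A) * Du * P' * Q' + P' * DQ = Q' * DP := by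
    apply Subtype.ext
    push_cast
    exact h2
  have h4 : Q' ∣ DQ := by
    have h5 : Q' ∣ P' * DQ := ⟨DP - (n : A) * Du * P', by linear_combination h3⟩
    exact hrel.symm.dvd_of_dvd_mul_left h5
  have h5 : P' ∣ DP := by
    have h5 : P' ∣ Q' * DP := ⟨(n : A) * Du * Q' + DQ, by linear_combination -h3⟩
    exact hrel.dvd_of_dvd_mul_left h5
  obtain ⟨a, ha⟩ := h4
  obtain ⟨b, hb⟩ := h5
  have ha' : D (Q' : E) = a * Q' := by
    have := congrArg (fun r : A => (r : E)) ha
    simp only [MulMemClass.coe_mul, DQ] at this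
    rw [this, mul_comm]
  have hb' : D (P' : E) = b * P' := by
    have := congrArg (fun r : A => (r : E)) hb
    simp only [MulMemClass.coe_mul, DP] at this
    rw [this, mul_comm]
  obtain ⟨w₁, hw₁, c₁, hc₁, hPw⟩ := unit_form h hK hA P'.2 hP' b.2 hb'
  obtain ⟨w₂, hw₂, c₂, hc₂, hQw⟩ := unit_form h hK hA Q'.2 hQ' a.2 ha'
  have hc₂0 : c₂ ≠ 0 := by
    rintro rfl
    rw [zero_mul] at hQw
    exact hQ' hQw
  set w : U := w₁ - w₂ with hw
  have hwL : w ∈ L := L.sub_mem hw₁ hw₂
  have h6 : ex u ^ n = c₁ * c₂⁻¹ * ex w := by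
    rw [hw, sub_eq_add_neg, h.add, h.inv w₂]
    apply mul_right_cancel₀ hQ'
    rw [hx, hPw, hQw]
    have h8 := h.ne w₂
    field_simp
  obtain ⟨A', L', hA', hle, -, hroot⟩ := scale h hA hn
  set y : E := ex (u - (n : k)⁻¹ • w) with hy
  have hyn : y ^ n = c₁ * c₂⁻¹ := by
    rw [hy, sub_eq_add_neg, h.add, mul_pow, h6, h.inv, inv_pow, h.inv_smul hn, mul_assoc,
      mul_inv_cancel₀ (h.ne w), mul_one]
  have hyK : y ∈ K₀ := by
    apply hK.closed
    apply IsAlgebraic.of_pow hn
    rw [hyn]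
    exact isAlgebraic_algebraMap (⟨c₁ * c₂⁻¹, K₀.mul_mem hc₁ (K₀.inv_mem hc₂)⟩ : K₀)
  refine ⟨A', L', hA', hle, ?_⟩
  have h8 : u = (u - (n : k)⁻¹ • w) + (n : k)⁻¹ • w := by abel
  rw [h8, h.add]
  exact A'.mul_mem (Tow.le hA' hyK) (hroot w hwL)

/-- **Algebraic primitives over towers.** -/
theorem prim_mem [CharZero E] {A : Subalgebra k E} {L : AddSubgroup U}
    (hA : Tow D ι ex K₀ A L) {y : E} (hy : D y ∈ A) (halg : IsAlgebraic A y) : y ∈ A := by
  have hst := stable h hK hA
  have hufd := ufd h hA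
  obtain ⟨P, Q, hP, hQ, hQ0, hPQ⟩ := alg_prim h.hconst hst hy rfl halg
  obtain ⟨P', Q', hrel, hQ', hx⟩ := reduced hufd hP hQ hQ0 hPQ
  have h1 := congrArg D hx
  rw [Derivation.leibniz] at h1
  simp only [smul_eq_mul] at h1
  have h2 : D y * Q' * Q' + P' * D Q' = Q' * D P' := by
    rw [← h1, ← hx]
    ring
  let DP : A := ⟨D P', hst _ P'.2⟩
  let DQ : A := ⟨D Q', hst _ Q'.2⟩
  let Dy : A := ⟨D y, hy⟩
  have h3 : Dy * Q' * Q' + P' * DQ = Q' * DP := by
    apply Subtype.ext
    push_cast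
    exact h2
  have h4 : Q' ∣ DQ := by
    have h5 : Q' ∣ P' * DQ := ⟨DP - Dy * Q', by linear_combination h3⟩
    exact hrel.symm.dvd_of_dvd_mul_left h5
  obtain ⟨a, ha⟩ := h4
  have ha' : D (Q' : E) = a * Q' := by
    have := congrArg (fun r : A => (r : E)) ha
    simp only [MulMemClass.coe_mul, DQ] at this
    rw [this, mul_comm]
  obtain ⟨w₂, hw₂, c₂, hc₂, hQw⟩ := unit_form h hK hA Q'.2 hQ' a.2 ha'
  have hc₂0 : c₂ ≠ 0 := by
    rintro rfl
    rw [zero_mul] at hQw
    exact hQ' hQw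
  have h8 : y = P' * (c₂⁻¹ * ex (-w₂)) := by
    rw [h.inv]
    apply mul_right_cancel₀ hQ'
    rw [hx, hQw]
    have h9 := h.ne w₂
    field_simp
  rw [h8]
  exact A.mul_mem P'.2 (A.mul_mem (Tow.le hA (K₀.inv_mem hc₂))
    (lat h hA (-w₂) (L.neg_mem hw₂)).2)

omit hK in
/-- the elements of a tower are rational functions of algebraically independent elements -/
theorem basis {A : Subalgebra k E} {L : AddSubgroup U} (hA : Tow D ι ex K₀ A L) :
    ∃ (σ : Type) (_ : Finite σ) (s : σ → E), AlgebraicIndependent K₀ s ∧ (∀ i, s i ∈ A) ∧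
      (A : Set E) ⊆ IntermediateField.adjoin K₀ (Set.range s) := by
  have key : ∀ {A : Subalgebra k E} {σ : Type} {s : σ → E} {t : E}, K₀.toSubalgebra ≤ A →
      AlgebraicIndependent K₀ s → (∀ i, s i ∈ A) → Transcendental A t →
      AlgebraicIndependent K₀ (fun o : Option σ => o.elim t s) := by
    intro A σ s t hKA hs hsA ht
    rw [hs.option_iff_transcendental]
    intro h1
    apply ht
    have h2 : ∀ x ∈ Algebra.adjoin K₀ (Set.range s), x ∈ A := by
      intro x hx
      induction hx using Algebra.adjoin_induction with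
      | mem x hx =>
        obtain ⟨i, rfl⟩ := hx
        exact hsA i
      | algebraMap c => exact hKA c.2
      | add x y _ _ h1 h2 => exact A.add_mem h1 h2
      | mul x y _ _ h1 h2 => exact A.mul_mem h1 h2
    let f : Algebra.adjoin K₀ (Set.range s) →+* A :=
      { toFun := fun x => ⟨x.1, h2 x.1 x.2⟩
        map_one' := rfl
        map_mul' := fun _ _ => rfl
        map_zero' := rfl
        map_add' := fun _ _ => rfl }
    have hf : Function.Injective f := by
      intro x y hxy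
      exact Subtype.ext (congrArg (fun w : A => (w : E)) hxy)
    exact h1.ringHom_of_comp_eq f (RingHom.id E) hf rfl
  have key2 : ∀ {A : Subalgebra k E} {σ : Type} {s : σ → E} {t : E},
      (A : Set E) ⊆ IntermediateField.adjoin K₀ (Set.range s) →
      A ≤ ((IntermediateField.adjoin K₀
        (Set.range fun o : Option σ => o.elim t s)).restrictScalars k).toSubalgebra := by
    intro A σ s t hle x hx
    have h1 : IntermediateField.adjoin K₀ (Set.range s) ≤ IntermediateField.adjoin K₀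
        (Set.range fun o : Option σ => o.elim t s) := by
      apply IntermediateField.adjoin.mono
      rintro _ ⟨i, rfl⟩
      exact ⟨some i, rfl⟩
    exact h1 (hle hx)
  have key3 : ∀ {σ : Type} {s : σ → E} {t : E}, t ∈ IntermediateField.adjoin K₀
      (Set.range fun o : Option σ => o.elim t s) := by
    intro σ s t
    exact IntermediateField.subset_adjoin _ _ ⟨none, rfl⟩
  induction hA with
  | base =>
    refine ⟨Empty, inferInstance, fun i => i.elim, ?_, fun i => i.elim, fun x hx => ?_⟩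
    · rw [algebraicIndependent_empty_type_iff]
      exact (algebraMap K₀ E).injective
    · exact (IntermediateField.adjoin K₀ _).algebraMap_mem (⟨x, hx⟩ : K₀)
  | @prim A L t hA htr ht ih =>
    obtain ⟨σ, hσ, s, hs, hsA, hle⟩ := ih
    refine ⟨Option σ, inferInstance, fun o => o.elim t s, key (Tow.le hA) hs hsA htr, ?_,
      Pol_le (key2 hle) key3⟩
    rintro (_ | i)
    · exact self_Pol A t
    · exact le_Pol A t (hsA i)
  | @expo A L w hA hw htr ih =>
    obtain ⟨σ, hσ, s, hs, hsA, hle⟩ := ih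
    refine ⟨Option σ, inferInstance, fun o => o.elim (ex w) s, key (Tow.le hA) hs hsA htr, ?_,
      Lau_le (key2 hle) (h.ne w) key3 ((IntermediateField.adjoin K₀ _).inv_mem key3)⟩
    rintro (_ | i)
    · exact self_Lau A _
    · exact le_Lau A _ (hsA i)

end Tow

end Pool.Agent.TH600.LK
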